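import Mathlib

set_option autoImplicit false
set_option maxHeartbeats 400000

namespace Pool.Agent.Results.MP_2b0b8a_al.Ten

/-- intervals `[p,q]` with `p < q` -/
abbrev Gen (n : ℕ) : Type := {a : Fin n × Fin n // a.1 < a.2}

/-- The defining relators of the cactus group. -/
def rels (n : ℕ) : Set (FreeGroup (Gen n)) :=
  {r | (∃ a, r = FreeGroup.of a * FreeGroup.of a) ∨
    (∃ a b : Gen n, (a.1.2 < b.1.1 ∨ b.1.2 < a.1.1) ∧
      r = FreeGroup.of a * FreeGroup.of b * (FreeGroup.of b * FreeGroup.of a)⁻¹) ∨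
    (∃ a b c : Gen n, a.1.1 ≤ b.1.1 ∧ b.1.2 ≤ a.1.2 ∧
      c.1.1.val + b.1.2.val = a.1.1.val + a.1.2.val ∧
      c.1.2.val + b.1.1.val = a.1.1.val + a.1.2.val ∧
      r = FreeGroup.of a * FreeGroup.of b * (FreeGroup.of c * FreeGroup.of a)⁻¹)}

/-- The cactus group. -/
abbrev J (n : ℕ) : Type := PresentedGroup (rels n)

/-- Reversal of the coordinates of `A ^ r`. -/
def flip (A : Type) [Group A] (r : ℕ) : MulAut (Fin r → A) where
  toFun v := fun i => v i.rev
  invFun v := fun i => v i.rev
  left_inv v := by simp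
  right_inv v := by simp
  map_mul' _ _ := rfl

/-- The action of `ℤ/2` on `A ^ r` whose nontrivial element reverses the coordinates. -/
def act (A : Type) [Group A] (r : ℕ) : Multiplicative (ZMod 2) →* MulAut (Fin r → A) where
  toFun z := if z = 1 then 1 else flip A r
  map_one' := by simp
  map_mul' a b := by
    have h : flip A r * flip A r = 1 := by
      ext v i
      simp [flip]
    have key : ∀ a b : Multiplicative (ZMod 2), a ≠ 1 → b ≠ 1 → a * b = 1 := by decide
    by_cases ha : a = 1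
    · simp [ha]
    · by_cases hb : b = 1
      · simp [hb]
      · simp [ha, hb, key a b ha hb, h]

/-- `W [r_s, …, r_1]` is the iterated wreath product `W(r_1, …, r_s)`. -/
def W : List ℕ → GrpCat.{0}
  | [] => GrpCat.of (Multiplicative (ZMod 2))
  | r :: rs => GrpCat.of ((Fin r → W rs) ⋊[act (W rs) r] Multiplicative (ZMod 2))

theorem card_nil : Nat.card (W []) = 2 := by
  change Nat.card (Multiplicative (ZMod 2)) = 2
  simp

theorem card_cons (r : ℕ) (rs : List ℕ) : Nat.card (W (r :: rs)) = Nat.card (W rs) ^ r * 2 := by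
  change Nat.card ((Fin r → W rs) ⋊[act (W rs) r] Multiplicative (ZMod 2)) = _
  rw [SemidirectProduct.card, Nat.card_fun]
  simp

theorem card_le (rs : List ℕ) (h : ∀ r ∈ rs, 2 ≤ r) (h2 : 2 * rs.prod ≤ 10) :
    0 < Nat.card (W rs) ∧ Nat.card (W rs) ≤ 128 := by
  rcases rs with _ | ⟨a, _ | ⟨b, _ | ⟨c, t⟩⟩⟩
  · simp [card_nil]
  · have ha := h a (by simp)
    simp only [List.prod_cons, List.prod_nil, mul_one] at h2
    have : a ≤ 5 := by omega
    rw [card_cons, card_nil]
    interval_cases a <;> norm_num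
  · have ha := h a (by simp)
    have hb := h b (by simp)
    simp only [List.prod_cons, List.prod_nil, mul_one] at h2
    have ha' : a = 2 := by nlinarith
    have hb' : b = 2 := by nlinarith
    rw [card_cons, card_cons, card_nil, ha', hb']
    norm_num
  · exfalso
    have ha := h a (by simp)
    have hb := h b (by simp)
    have hc := h c (by simp)
    have ht : 1 ≤ t.prod := List.one_le_prod_of_one_le fun x hx =>
      le_trans (by norm_num) (h x (by simp [hx]))
    simp only [List.prod_cons] at h2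
    have : 2 * (2 * (2 * 1)) ≤ a * (b * (c * t.prod)) := by gcongr
    omega

def rv {n : ℕ} (a : Gen n) (i : ℕ) : ℕ :=
  if a.1.1.val ≤ i ∧ i ≤ a.1.2.val then a.1.1.val + a.1.2.val - i else i

theorem rv_rv {n : ℕ} (a : Gen n) (i : ℕ) : rv a (rv a i) = i := by
  unfold rv
  split_ifs <;> omega

def pr {n : ℕ} (a : Gen n) : Equiv.Perm ℕ := ⟨rv a, rv a, rv_rv a, rv_rv a⟩

def π (n : ℕ) : J n →* Equiv.Perm ℕ :=
  PresentedGroup.toGroup (f := pr) (by
    rintro r (⟨a, rfl⟩ | ⟨a, b, hab, rfl⟩ | ⟨a, b, c, k1, k2, k3, k4, rfl⟩)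
    · simp only [map_mul, FreeGroup.lift_apply_of]
      ext1 x
      exact rv_rv a x
    · simp only [map_mul, map_inv, FreeGroup.lift_apply_of, mul_inv_eq_one]
      ext1 x
      change rv a (rv b x) = rv b (rv a x)
      have ha : a.1.1.val < a.1.2.val := a.2
      have hb : b.1.1.val < b.1.2.val := b.2
      simp only [Fin.lt_def] at hab
      unfold rv
      split_ifs <;> omega
    · simp only [map_mul, map_inv, FreeGroup.lift_apply_of, mul_inv_eq_one]
      ext1 x
      change rv a (rv b x) = rv c (rv a x)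
      have ha : a.1.1.val < a.1.2.val := a.2
      have hb : b.1.1.val < b.1.2.val := b.2
      simp only [Fin.le_def] at k1 k2
      unfold rv
      split_ifs <;> omega)

def wd {n : ℕ} (l : List (Gen n)) : J n := (l.map PresentedGroup.of).prod

theorem π_wd {n : ℕ} (l : List (Gen n)) (x : ℕ) : π n (wd l) x = l.foldr rv x := by
  induction l with
  | nil => simp [wd]
  | cons a l ih =>
    have : wd (a :: l) = PresentedGroup.of a * wd l := by simp [wd]
    rw [this, map_mul, Equiv.Perm.mul_apply, ih, π, PresentedGroup.toGroup.of]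
    rfl

def H {n : ℕ} (l : List (Gen n)) : Subgroup (J n) :=
  Subgroup.closure {x | ∃ a ∈ l, x = PresentedGroup.of a}

def Rel {n : ℕ} (a b c : Gen n) : Prop :=
  ((a.1.2 < b.1.1 ∨ b.1.2 < a.1.1) ∧ c = b) ∨ (a.1.1 ≤ b.1.1 ∧ b.1.2 ≤ a.1.2 ∧
      c.1.1.val + b.1.2.val = a.1.1.val + a.1.2.val ∧
      c.1.2.val + b.1.1.val = a.1.1.val + a.1.2.val)

instance {n : ℕ} (a b c : Gen n) : Decidable (Rel a b c) := by unfold Rel; infer_instance

theorem sq_of {n : ℕ} (a : Gen n) : (PresentedGroup.of a * PresentedGroup.of a : J n) = 1 := by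
  have := PresentedGroup.one_of_mem (rels := rels n) (Or.inl ⟨a, rfl⟩)
  simp only [map_mul] at this
  exact this

theorem rel_of {n : ℕ} {a b c : Gen n} (h : Rel a b c) :
    (PresentedGroup.of a * PresentedGroup.of b : J n) = PresentedGroup.of c * PresentedGroup.of a := by
  rcases h with ⟨h, rfl⟩ | ⟨k1, k2, k3, k4⟩
  · have := PresentedGroup.one_of_mem (rels := rels n) (Or.inr (Or.inl ⟨a, c, h, rfl⟩))
    simp only [map_mul, map_inv, mul_inv_eq_one] at this
    exact this
  · have := PresentedGroup.one_of_mem (rels := rels n) (Or.inr (Or.inr ⟨a, b, c, k1, k2, k3, k4, rfl⟩))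
    simp only [map_mul, map_inv, mul_inv_eq_one] at this
    exact this

theorem step {n : ℕ} (a : Gen n) (l : List (Gen n)) (h : ∀ b ∈ l, ∃ c ∈ l, Rel a b c)
    (hf : (H l : Set (J n)).Finite) : (H (a :: l) : Set (J n)).Finite := by
  obtain ⟨s, hs⟩ : ∃ s : J n, s = PresentedGroup.of a := ⟨_, rfl⟩
  have hss : s * s = 1 := hs ▸ sq_of a
  have hn : ∀ x ∈ H l, s * x * s ∈ H l := by
    intro x hx
    induction hx using Subgroup.closure_induction with
    | mem x hx =>
      obtain ⟨b, hb, rfl⟩ := hx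
      obtain ⟨c, hc, hr⟩ := h b hb
      rw [hs, rel_of hr, mul_assoc, sq_of, mul_one]
      exact Subgroup.subset_closure ⟨c, hc, rfl⟩
    | one => rw [mul_one, hss]; exact one_mem _
    | mul x y _ _ hx hy =>
      have := mul_mem hx hy
      rwa [show s * x * s * (s * y * s) = s * x * (s * s) * y * s by group, hss, mul_one,
        mul_assoc s x y] at this
    | inv x _ hx =>
      have := inv_mem hx
      rwa [mul_inv_rev, mul_inv_rev, inv_eq_of_mul_eq_one_right hss, ← mul_assoc] at this
  refine (hf.union (hf.image (fun x => x * s))).subset ?_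
  intro x hx
  induction hx using Subgroup.closure_induction with
  | mem x hx =>
    obtain ⟨b, hb, rfl⟩ := hx
    rcases List.mem_cons.1 hb with rfl | hb
    · exact Or.inr ⟨1, one_mem _, by simp [hs]⟩
    · exact Or.inl (Subgroup.subset_closure ⟨b, hb, rfl⟩)
  | one => exact Or.inl (one_mem _)
  | mul x y _ _ hx hy =>
    rcases hx with hx | ⟨x, hx, rfl⟩ <;> rcases hy with hy | ⟨y, hy, rfl⟩
    · exact Or.inl (mul_mem hx hy)
    · exact Or.inr ⟨x * y, mul_mem hx hy, by simp [mul_assoc]⟩
    · refine Or.inr ⟨x * (s * y * s), mul_mem hx (hn y hy), ?_⟩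
      simp only [mul_assoc, hss, mul_one]
    · refine Or.inl ?_
      have := mul_mem hx (hn y hy)
      simpa only [mul_assoc, SetLike.mem_coe] using this
  | inv x _ hx =>
    rcases hx with hx | ⟨x, hx, rfl⟩
    · exact Or.inl (inv_mem hx)
    · refine Or.inr ⟨s * x⁻¹ * s, hn _ (inv_mem hx), ?_⟩
      simp only [mul_assoc, hss, mul_one, mul_inv_rev, inv_eq_of_mul_eq_one_right hss]

def L : List (Gen 10) :=
  [⟨(0, 7), by decide⟩, ⟨(4, 7), by decide⟩, ⟨(0, 3), by decide⟩, ⟨(8, 9), by decide⟩,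
    ⟨(6, 7), by decide⟩, ⟨(4, 5), by decide⟩, ⟨(2, 3), by decide⟩, ⟨(0, 1), by decide⟩]

theorem fin_L : (H L : Set (J 10)).Finite := by
  unfold L
  iterate 8 refine step _ _ (by decide +kernel) ?_
  simp [H]

theorem nodup : (L.sublists.map wd).Nodup := by
  have h : (L.sublists.map (fun l => (List.range 10).map (fun x => l.foldr rv x))).Nodup := by
    decide +kernel
  refine List.Nodup.of_map (fun g => (List.range 10).map (fun x => π 10 g x)) ?_
  simpa only [List.map_map, Function.comp_def, π_wd] using h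

theorem card_L : 256 ≤ Nat.card (H L) := by
  classical
  have h1 : ((L.sublists.map wd).toFinset : Set (J 10)) ⊆ H L := by
    intro x hx
    simp only [List.coe_toFinset, List.mem_map, List.mem_sublists, Set.mem_ofPred_eq] at hx
    obtain ⟨l, hl, rfl⟩ := hx
    refine Subgroup.list_prod_mem _ fun y hy => ?_
    obtain ⟨a, ha, rfl⟩ := List.mem_map.1 hy
    exact Subgroup.subset_closure ⟨a, hl.subset ha, rfl⟩
  have h2 := Set.ncard_le_ncard h1 fin_L
  rw [Set.ncard_coe_finset, List.toFinset_card_of_nodup nodup, List.length_map,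
    List.length_sublists] at h2
  exact h2

theorem result : ∃ n : ℕ, 2 ≤ n ∧ ∃ (G : Type) (_ : Group G), Finite G ∧
    (∃ f : G →* J n, Function.Injective f) ∧
    ¬ ∃ rs : List ℕ, (∀ r ∈ rs, 2 ≤ r) ∧ 2 * rs.prod ≤ n ∧
      ∃ f : G →* W rs, Function.Injective f := by
  refine ⟨10, by norm_num, H L, inferInstance, fin_L.to_subtype, ⟨(H L).subtype, Subtype.val_injective⟩, ?_⟩
  rintro ⟨rs, h1, h2, f, hf⟩
  obtain ⟨k1, k2⟩ := card_le rs h1 h2
  have : Finite (W rs) := Nat.finite_of_card_ne_zero k1.ne'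
  have := Nat.card_le_card_of_injective f hf
  have := card_L
  omega

end Pool.Agent.Results.MP_2b0b8a_al.Ten
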